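import Mathlib
import Pool.Agent.Lib.MP_1bacea_co.ThmC
import Pool.Agent.Lib.MP_1bacea_co.Low.NotWhp

/-!
# The chromatic threshold of odd cycles of length at least 7 in `G(n,p)`

For `k ≥ 3` and every `p ≫ n^{-(2k-3)/(2k-2)}` the chromatic threshold of `C_{2k+1}` with respect
to `p` is `0` if `p ≥ n^{-(2k-3)/(2k-2)+δ}` for some fixed `δ > 0` and all large `n`, and it is `1/2`
otherwise.
-/

namespace Pool.Agent.Results.MP_1bacea_co.ChromThresholdOddCycles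

open Filter Topology

/-- The chromatic threshold of `H` with respect to `p`: the infimum of all `d > 0` such that for some
`C`, with probability tending to `1`, every `H`-free spanning subgraph `G` of the binomial random
graph `Γ = G(n, p n)` with minimum degree at least `d (p n) n` is `C`-colourable. -/
noncomputable def chromThreshold {m : ℕ} (H : SimpleGraph (Fin m)) (p : ℕ → unitInterval) : ℝ :=
  sInf {d : ℝ | 0 < d ∧ ∃ C : ℕ, Tendsto (fun n : ℕ =>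
    (SimpleGraph.binomialRandom (Fin n) (p n)).real
      {Γ | ∀ G : SimpleGraph (Fin n), G ≤ Γ → H.Free G →
        (∀ v, d * (p n : ℝ) * n ≤ ((G.neighborSet v).ncard : ℝ)) → G.Colorable C})
    atTop (𝓝 1)}

/-- The chromatic threshold of `C_{2k+1}`, `k ≥ 3`, for every `p ≫ n^{-(2k-3)/(2k-2)}`. -/
theorem result (k : ℕ) (hk : 3 ≤ k) (p : ℕ → unitInterval)
    (hp : Tendsto (fun n : ℕ => (p n : ℝ) * (n : ℝ) ^ ((2 * (k : ℝ) - 3) / (2 * k - 2)))
      atTop atTop) :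
    ((∃ δ : ℝ, 0 < δ ∧
        ∀ᶠ n : ℕ in atTop, (n : ℝ) ^ (-((2 * (k : ℝ) - 3) / (2 * k - 2)) + δ) ≤ (p n : ℝ)) →
      chromThreshold (SimpleGraph.cycleGraph (2 * k + 1)) p = 0) ∧
    ((¬ ∃ δ : ℝ, 0 < δ ∧
        ∀ᶠ n : ℕ in atTop, (n : ℝ) ^ (-((2 * (k : ℝ) - 3) / (2 * k - 2)) + δ) ≤ (p n : ℝ)) →
      chromThreshold (SimpleGraph.cycleGraph (2 * k + 1)) p = 1 / 2) := by
  have hp' := hp
  have hk0 := hk
  obtain ⟨r, rfl⟩ : ∃ r, k = r + 1 := ⟨k - 1, by omega⟩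
  have hr : 2 ≤ r := by omega
  have hr0 : (0 : ℝ) < r := by exact_mod_cast (by omega : 0 < r)
  have hexp : (2 * ((r + 1 : ℕ) : ℝ) - 3) / (2 * ((r + 1 : ℕ) : ℝ) - 2) = 1 - 1 / (2 * r : ℝ) := by
    push_cast
    have : 2 * ((r : ℝ) + 1) - 2 = 2 * r := by ring
    rw [this]
    field_simp
    ring
  constructor
  · rintro ⟨δ, hδ, hev⟩
    rw [hexp] at hev
    have hset : {d : ℝ | 0 < d ∧ ∃ C : ℕ, Tendsto (fun n : ℕ =>
        (SimpleGraph.binomialRandom (Fin n) (p n)).real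
        {Γ | ∀ G : SimpleGraph (Fin n), G ≤ Γ → (SimpleGraph.cycleGraph (2 * (r + 1) + 1)).Free G →
          (∀ v, d * (p n : ℝ) * n ≤ ((G.neighborSet v).ncard : ℝ)) → G.Colorable C})
        atTop (𝓝 1)} = Set.Ioi 0 := by
      ext d
      constructor
      · exact fun h => h.1
      · exact fun h => ⟨h, Pool.MP_1bacea_co.upper_main r hr δ hδ p hev d h⟩
    unfold chromThreshold
    rw [hset, csInf_Ioi]
  · intro hno
    have hfreq : ∀ δ : ℝ, 0 < δ → ∃ᶠ n : ℕ in atTop,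
        (p n : ℝ) ≤ (n : ℝ) ^ (-((2 * ((r + 1 : ℕ) : ℝ) - 3) / (2 * ((r + 1 : ℕ) : ℝ) - 2)) + δ) := by
      intro δ hδ
      have h1 : ¬ ∀ᶠ n : ℕ in atTop,
          (n : ℝ) ^ (-((2 * ((r + 1 : ℕ) : ℝ) - 3) / (2 * ((r + 1 : ℕ) : ℝ) - 2)) + δ) ≤ (p n : ℝ) :=
        fun h => hno ⟨δ, hδ, h⟩
      rw [Filter.not_eventually] at h1
      exact h1.mono fun n hn => (not_le.mp hn).le
    have hge : ∀ᶠ n : ℕ in atTop, (n : ℝ) ^ (-(1 - 1 / (2 * r : ℝ))) ≤ (p n : ℝ) := by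
      rw [hexp] at hp
      filter_upwards [hp.eventually_ge_atTop 1, eventually_ge_atTop 1] with n h1 h2
      have hn0 : (0 : ℝ) < n := by exact_mod_cast h2
      rw [Real.rpow_neg hn0.le, inv_le_iff_one_le_mul₀ (Real.rpow_pos_of_pos hn0 _)]
      exact h1
    unfold chromThreshold
    refine csInf_eq_of_forall_ge_of_forall_gt_exists_lt ?_ ?_ ?_
    · exact ⟨1, one_pos, 0, Pool.MP_1bacea_co.thmC_main r hr p hge 1 (by norm_num) 0⟩
    · rintro d ⟨_, C, hC⟩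
      by_contra hlt
      push Not at hlt
      exact Pool.MP_1bacea_co.not_whp (r + 1) hk0 p hp' hfreq d hlt C hC
    · intro w hw
      refine ⟨(1 / 2 + w) / 2, ⟨by linarith, 0, ?_⟩, by linarith⟩
      exact Pool.MP_1bacea_co.thmC_main r hr p hge _ (by linarith) 0

end Pool.Agent.Results.MP_1bacea_co.ChromThresholdOddCycles
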